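import Pool.Agent.helper32.EX.SpecA

/-!
# Row `ex:DM2`
-/

set_option autoImplicit false

namespace Pool.Agent.EX

theorem DM2_nonneg {n : ℕ} {C : Matrix (Fin n) (Fin n) ℤ} [hC : Fact (Dyn C)] {θ : Rt C} (h : Dom θ) (β : Rt C)
    (hβ : Pos β) : 0 ≤ Q C θ.1 β.1 := by
  rw [Q_expand]
  exact Finset.sum_nonneg fun i _ => mul_nonneg (hβ i) (h i)

theorem DM2 (hSGN : SGN_stmt) : DM2_stmt := by
  intro n C hC θ hθ
  refine ⟨?_, fun β hβ => DM2_nonneg hθ β hβ⟩
  have hpos : Pos θ := by
    rcases hSGN C θ with h | h
    · exact h
    · have h1 := DM2_nonneg hθ (-θ) h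
      rw [neg_val, Q_neg_right, θ.2] at h1
      norm_num at h1
  have hs : {i | 0 < θ.1 i} = Set.univ := by
    apply hC.out.conn
    · by_contra hne
      rw [Set.not_nonempty_iff_eq_empty] at hne
      apply ne_zero_of_rt θ
      funext i
      have h1 : ¬ 0 < θ.1 i := by
        intro h2
        have h3 : i ∈ {i | 0 < θ.1 i} := h2
        rw [hne] at h3
        exact h3
      have h2 := hpos i
      show θ.1 i = 0
      omega
    · intro i hi j hij
      by_contra hj
      have hi' : 0 < θ.1 i := hi
      have hj' : ¬ 0 < θ.1 j := hj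
      have hj0 : θ.1 j = 0 := by
        have := hpos j
        omega
      have hne : i ≠ j := by
        rintro rfl
        exact hj' hi'
      have h1 := hθ j
      have h2 : Q C θ.1 (sm C j).1 = ∑ k, θ.1 k * C k j := Q_single θ.1 j
      rw [h2] at h1
      have h3 : ∑ k, θ.1 k * C k j < 0 := by
        refine Finset.sum_neg' ?_ ⟨i, Finset.mem_univ i, ?_⟩
        · intro k _
          by_cases hk : k = j
          · rw [hk, hj0, zero_mul]
          · rcases hC.out.off k j hk with h4 | h4
            · rw [h4, mul_zero]
            · rw [h4]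
              have := hpos k
              linarith
        · rcases hC.out.off i j hne with h4 | h4
          · exact absurd h4 hij
          · rw [h4]
            linarith
      omega
  intro i
  have : i ∈ {i | 0 < θ.1 i} := by
    rw [hs]
    trivial
  exact this

end Pool.Agent.EX
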